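import Mathlib
import Pool.Agent.H25.Theta

namespace Pool.Agent.Results.MP_284f77_nt.Odd

open Finset Nat

def P1 (n : ℕ) : ℤ := ∏ j ∈ Icc 1 n, (4 * (j : ℤ) - 1) ^ 2

def P3 (n : ℕ) : ℤ := ∏ j ∈ Icc 1 n, (4 * (j : ℤ) - 3) ^ 2

open H25.Theta PowerSeries in
lemma cN (n : ℕ) : coeff n N = P1 n / (2 * n + 1)! := by
  induction n with
  | zero => simp [F0, P1]
  | succ n ih =>
    rw [F_succ _ _ _ (by norm_num), ih, P1, P1, prod_Icc_succ_top (by omega),
      show 2 * (n + 1) + 1 = 2 * n + 1 + 1 + 1 by ring, factorial_succ (_ + 1 + 1),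
      factorial_succ (_ + 1)]
    push_cast
    field_simp
    ring

open H25.Theta PowerSeries in
lemma cD (n : ℕ) : coeff n D = P3 n / (2 * n)! := by
  induction n with
  | zero => simp [F0, P3]
  | succ n ih =>
    rw [F_succ _ _ _ (by norm_num), ih, P3, P3, prod_Icc_succ_top (by omega),
      show 2 * (n + 1) = 2 * n + 1 + 1 by ring, factorial_succ (_ + 1),
      factorial_succ (2 * n)]
    push_cast
    field_simp
    ring

theorem result (u : ℕ → ℤ) (h0 : u 0 = 1)
    (h : ∀ n, 1 ≤ n → u n = P1 n -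
      ∑ m ∈ range n, ((2 * n + 1).choose (2 * m + 1) : ℤ) * P3 (n - m) * u m) (n : ℕ) :
    Odd ((u n : ℚ) / (2 * n + 1)!).den := by
  have key : PowerSeries.mk (fun n => (u n : ℚ) / (2 * n + 1)!) * H25.Theta.D = H25.Theta.N := by
    ext n
    rw [PowerSeries.coeff_mul, Finset.Nat.sum_antidiagonal_eq_sum_range_succ_mk, sum_range_succ,
      cN]
    simp only [PowerSeries.coeff_mk, cD]
    rcases n.eq_zero_or_pos with rfl | hn
    · simp [h0, P1, P3]
    rw [h n hn]
    push_cast
    rw [Nat.sub_self, sub_div, sum_div, sum_congr rfl (g := fun m =>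
      ((2 * n + 1).choose (2 * m + 1) : ℚ) * P3 (n - m) * u m / (2 * n + 1)!)]
    · simp [P3]
    intro m hm
    have hm := mem_range.1 hm
    rw [← choose_mul_factorial_mul_factorial (by omega : 2 * m + 1 ≤ 2 * n + 1),
      show 2 * n + 1 - (2 * m + 1) = 2 * (n - m) by omega]
    have : ((2 * n + 1).choose (2 * m + 1) : ℚ) ≠ 0 := by
      exact_mod_cast (choose_pos (by omega)).ne'
    push_cast
    field_simp
  simpa using H25.Theta.mem_R.1 (H25.Theta.T_mem key n)

end Pool.Agent.Results.MP_284f77_nt.Odd
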